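import Mathlib

set_option autoImplicit false

namespace Pool.Agent.Helper174.LusinNovikov

open Set MeasureTheory

theorem analytic_inter {X : Type*} [TopologicalSpace X] [T2Space X] {s t : Set X}
    (hs : AnalyticSet s) (ht : AnalyticSet t) : AnalyticSet (s ∩ t) := by
  rw [inter_eq_iInter]
  apply AnalyticSet.iInter
  rintro (_ | _)
  · exact ht
  · exact hs

/-- An analytic set with at most one point in each vertical section is contained in a Borel
set with the same property. -/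
theorem analytic_graph_subset {X Y : Type*} [TopologicalSpace X] [PolishSpace X]
    [MeasurableSpace X] [BorelSpace X] [TopologicalSpace Y] [PolishSpace Y] [MeasurableSpace Y]
    [BorelSpace Y] {A : Set (X × Y)} (hA : AnalyticSet A)
    (h1 : ∀ x y y', (x, y) ∈ A → (x, y') ∈ A → y = y') :
    ∃ B : Set (X × Y), MeasurableSet B ∧ A ⊆ B ∧ ∀ x y y', (x, y) ∈ B → (x, y') ∈ B → y = y' := by
  classical
  obtain ⟨b, hb⟩ : ∃ b : Set (Set Y), b = TopologicalSpace.countableBasis Y := ⟨_, rfl⟩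
  have hbc : Countable b := by
    rw [hb]; exact (TopologicalSpace.countable_countableBasis Y).to_subtype
  have hbb : TopologicalSpace.IsTopologicalBasis b := by
    rw [hb]; exact TopologicalSpace.isBasis_countableBasis Y
  obtain ⟨P, hP⟩ : ∃ P : Set Y → Set X, ∀ U, P U = Prod.fst '' (A ∩ Prod.snd ⁻¹' U) :=
    ⟨_, fun _ => rfl⟩
  have hPa : ∀ U ∈ b, AnalyticSet (P U) := by
    intro U hU
    rw [hP]
    have hUo : IsOpen (Prod.snd ⁻¹' U : Set (X × Y)) := (hbb.isOpen hU).preimage continuous_snd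
    have : AnalyticSet (Prod.snd ⁻¹' U : Set (X × Y)) := by
      have := hUo.analyticSet_image continuous_id
      rwa [image_id] at this
    exact (analytic_inter hA this).image_of_continuous continuous_fst
  have hsep : ∀ p : b × b, ∃ D : Set X, MeasurableSet D ∧
      (Disjoint p.1.1 p.2.1 → P p.1.1 ⊆ D ∧ Disjoint (P p.2.1) D) := by
    intro p
    by_cases hd : Disjoint p.1.1 p.2.1
    · have hdis : Disjoint (P p.1.1) (P p.2.1) := by
        rw [Set.disjoint_left]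
        rw [hP, hP]
        rintro x ⟨⟨x1, y1⟩, ⟨hA1, hU1⟩, rfl⟩ ⟨⟨x2, y2⟩, ⟨hA2, hU2⟩, hx2⟩
        simp only at hx2
        subst hx2
        have := h1 _ _ _ hA1 hA2
        subst this
        exact Set.disjoint_left.1 hd hU1 hU2
      obtain ⟨D, hD1, hD2, hD3⟩ := (hPa _ p.1.2).measurablySeparable (hPa _ p.2.2) hdis
      exact ⟨D, hD3, fun _ => ⟨hD1, hD2⟩⟩
    · exact ⟨∅, MeasurableSet.empty, fun h => absurd h hd⟩
  choose D hDm hD using hsep
  refine ⟨⋂ p : b × b, {q : X × Y | Disjoint p.1.1 p.2.1 →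
    (q.2 ∈ p.1.1 → q.1 ∈ D p) ∧ (q.2 ∈ p.2.1 → q.1 ∉ D p)}, ?_, ?_, ?_⟩
  · refine MeasurableSet.iInter fun p => ?_
    by_cases hd : Disjoint p.1.1 p.2.1
    · have e : {q : X × Y | Disjoint p.1.1 p.2.1 →
          (q.2 ∈ p.1.1 → q.1 ∈ D p) ∧ (q.2 ∈ p.2.1 → q.1 ∉ D p)} =
          (Prod.snd ⁻¹' (p.1.1)ᶜ ∪ Prod.fst ⁻¹' (D p)) ∩
          (Prod.snd ⁻¹' (p.2.1)ᶜ ∪ Prod.fst ⁻¹' (D p)ᶜ) := by
        ext q
        simp only [mem_ofPred_eq, mem_inter_iff, mem_union, mem_preimage, mem_compl_iff]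
        constructor
        · intro h
          obtain ⟨h2, h3⟩ := h hd
          constructor
          · by_cases h4 : q.2 ∈ p.1.1
            · exact Or.inr (h2 h4)
            · exact Or.inl h4
          · by_cases h4 : q.2 ∈ p.2.1
            · exact Or.inr (h3 h4)
            · exact Or.inl h4
        · rintro ⟨h2, h3⟩ _
          exact ⟨fun h4 => h2.resolve_left (fun h => h h4), fun h4 => h3.resolve_left (fun h => h h4)⟩
      rw [e]
      have m1 : MeasurableSet p.1.1 := (hbb.isOpen p.1.2).measurableSet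
      have m2 : MeasurableSet p.2.1 := (hbb.isOpen p.2.2).measurableSet
      exact ((measurable_snd m1.compl).union (measurable_fst (hDm p))).inter
        ((measurable_snd m2.compl).union (measurable_fst (hDm p).compl))
    · have e : {q : X × Y | Disjoint p.1.1 p.2.1 →
          (q.2 ∈ p.1.1 → q.1 ∈ D p) ∧ (q.2 ∈ p.2.1 → q.1 ∉ D p)} = univ := by
        ext q
        simp only [mem_ofPred_eq, mem_univ, iff_true]
        exact fun h => absurd h hd
      rw [e]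
      exact MeasurableSet.univ
  · intro q hq
    rw [mem_iInter]
    intro p hd
    obtain ⟨h2, h3⟩ := hD p hd
    constructor
    · intro hqU
      apply h2
      rw [hP]
      exact ⟨q, ⟨hq, hqU⟩, rfl⟩
    · intro hqV hqD
      apply Set.disjoint_left.1 h3 _ hqD
      rw [hP]
      exact ⟨q, ⟨hq, hqV⟩, rfl⟩
  · intro x y y' hy hy'
    by_contra hne
    obtain ⟨U0, V0, hU0, hV0, hyU0, hyV0, hdis⟩ := t2_separation hne
    obtain ⟨U, hUb, hyU, hUU⟩ := hbb.exists_subset_of_mem_open hyU0 hU0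
    obtain ⟨V, hVb, hyV, hVV⟩ := hbb.exists_subset_of_mem_open hyV0 hV0
    have hd : Disjoint U V := hdis.mono hUU hVV
    have e1 := mem_iInter.1 hy (⟨U, hUb⟩, ⟨V, hVb⟩) hd
    have e2 := mem_iInter.1 hy' (⟨U, hUb⟩, ⟨V, hVb⟩) hd
    exact e2.2 hyV (e1.1 hyU)

/-- contained in countably many Borel graphs -/
def Small {X Y : Type*} [MeasurableSpace X] [MeasurableSpace Y] (T : Set (X × Y)) : Prop :=
  ∃ B : ℕ → Set (X × Y), (∀ n, MeasurableSet (B n)) ∧ T ⊆ ⋃ n, B n ∧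
    ∀ n x y y', (x, y) ∈ B n → (x, y') ∈ B n → y = y'

theorem small_mono {X Y : Type*} [MeasurableSpace X] [MeasurableSpace Y] {T T' : Set (X × Y)}
    (h : Small T') (hT : T ⊆ T') : Small T := by
  obtain ⟨B, h1, h2, h3⟩ := h
  exact ⟨B, h1, hT.trans h2, h3⟩

theorem small_empty {X Y : Type*} [MeasurableSpace X] [MeasurableSpace Y] :
    Small (∅ : Set (X × Y)) :=
  ⟨fun _ => ∅, fun _ => MeasurableSet.empty, empty_subset _, fun _ _ _ _ h => absurd h (by simp)⟩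

theorem small_iUnion {X Y : Type*} [MeasurableSpace X] [MeasurableSpace Y] {ι : Type*}
    [Countable ι] {T : ι → Set (X × Y)} (h : ∀ i, Small (T i)) : Small (⋃ i, T i) := by
  choose B h1 h2 h3 using h
  rcases isEmpty_or_nonempty ι with hι | hι
  · rw [iUnion_of_empty]
    exact small_empty
  · obtain ⟨e, he⟩ := exists_surjective_nat (ι × ℕ)
    refine ⟨fun n => B (e n).1 (e n).2, fun n => h1 _ _, ?_, fun n => h3 _ _⟩
    intro p hp
    obtain ⟨i, hi⟩ := mem_iUnion.1 hp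
    obtain ⟨m, hm⟩ := mem_iUnion.1 (h2 i hi)
    obtain ⟨n, hn⟩ := he (i, m)
    refine mem_iUnion.2 ⟨n, ?_⟩
    rw [hn]
    exact hm

theorem small_union {X Y : Type*} [MeasurableSpace X] [MeasurableSpace Y] {S T : Set (X × Y)}
    (hS : Small S) (hT : Small T) : Small (S ∪ T) := by
  rw [union_eq_iUnion]
  apply small_iUnion
  rintro (_ | _)
  · exact hT
  · exact hS

/-- configurations -/
def Conf {X Y : Type*} (φ : (ℕ → ℕ) → X × Y) (S : Set (X × Y)) : Set (ℕ → ℕ → ℕ) :=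
  {γ | ∀ j, φ (γ j) ∈ S ∧ (φ (γ j)).1 = (φ (γ 0)).1}

theorem conf_mono {X Y : Type*} {φ : (ℕ → ℕ) → X × Y} {S T : Set (X × Y)} (h : S ⊆ T) :
    Conf φ S ⊆ Conf φ T := fun _ hγ j => ⟨h (hγ j).1, (hγ j).2⟩

/-- terminal pairs -/
def Term {X Y : Type*} (φ : (ℕ → ℕ) → X × Y) (O : Set (ℕ → ℕ → ℕ)) (S : Set (X × Y)) (i : ℕ) :
    Prop :=
  ∀ γ ∈ O ∩ Conf φ S, ∀ γ' ∈ O ∩ Conf φ S, (φ (γ i)).1 = (φ (γ' i)).1 →
    (φ (γ i)).2 = (φ (γ' i)).2

theorem term_anti {X Y : Type*} {φ : (ℕ → ℕ) → X × Y} {O : Set (ℕ → ℕ → ℕ)} {S T : Set (X × Y)}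
    {i : ℕ} (h : S ⊆ T) (hT : Term φ O T i) : Term φ O S i :=
  fun γ hγ γ' hγ' => hT γ ⟨hγ.1, conf_mono h hγ.2⟩ γ' ⟨hγ'.1, conf_mono h hγ'.2⟩

theorem measurableSet_conf {X Y : Type*} [TopologicalSpace X] [PolishSpace X]
    [MeasurableSpace X] [BorelSpace X] [TopologicalSpace Y] [PolishSpace Y] [MeasurableSpace Y]
    [BorelSpace Y] {φ : (ℕ → ℕ) → X × Y} (hφ : Continuous φ) {S : Set (X × Y)}
    (hS : MeasurableSet S) : MeasurableSet (Conf φ S) := by
  have e : Conf φ S = ⋂ j, ((fun γ : ℕ → ℕ → ℕ => φ (γ j)) ⁻¹' S ∩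
      {γ | (φ (γ j)).1 = (φ (γ 0)).1}) := by
    ext γ
    simp [Conf]
  rw [e]
  refine MeasurableSet.iInter fun j => ?_
  have hc : Continuous (fun γ : ℕ → ℕ → ℕ => φ (γ j)) := hφ.comp (continuous_apply j)
  have hc0 : Continuous (fun γ : ℕ → ℕ → ℕ => φ (γ 0)) := hφ.comp (continuous_apply 0)
  refine (hc.measurable hS).inter ?_
  exact (isClosed_eq (continuous_fst.comp hc) (continuous_fst.comp hc0)).measurableSet

/-- the main density property -/
theorem key_star {X Y : Type*} [TopologicalSpace X] [PolishSpace X]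
    [MeasurableSpace X] [BorelSpace X] [TopologicalSpace Y] [PolishSpace Y] [MeasurableSpace Y]
    [BorelSpace Y] {R : Set (X × Y)} (hR : MeasurableSet R) {φ : (ℕ → ℕ) → X × Y}
    (hφ : Continuous φ) :
    ∃ S : Set (X × Y), MeasurableSet S ∧ S ⊆ R ∧ Small (R \ S) ∧
      ∀ O ∈ TopologicalSpace.countableBasis (ℕ → ℕ → ℕ), ∀ i, ∀ γ ∈ O ∩ Conf φ S, ¬ Term φ O S i := by
  classical
  have hκc : Countable (TopologicalSpace.countableBasis (ℕ → ℕ → ℕ)) :=
    (TopologicalSpace.countable_countableBasis _).to_subtype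
  -- choose good sets
  have h1 : ∀ c : (TopologicalSpace.countableBasis (ℕ → ℕ → ℕ)) × ℕ, ∃ S : Set (X × Y),
      (MeasurableSet S ∧ S ⊆ R ∧ Small (R \ S)) ∧
      ∀ S' : Set (X × Y), MeasurableSet S' → S' ⊆ R → Small (R \ S') → Term φ c.1.1 S' c.2 →
        Term φ c.1.1 S c.2 := by
    intro c
    by_cases h : ∃ S' : Set (X × Y), (MeasurableSet S' ∧ S' ⊆ R ∧ Small (R \ S')) ∧
        Term φ c.1.1 S' c.2
    · obtain ⟨S', hS', hT⟩ := h
      exact ⟨S', hS', fun _ _ _ _ _ => hT⟩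
    · refine ⟨R, ⟨hR, Subset.rfl, by rw [sdiff_self]; exact small_empty⟩, ?_⟩
      intro S' a1 a2 a3 a4
      exact absurd ⟨S', ⟨a1, a2, a3⟩, a4⟩ h
  choose S₁ hS₁ hT₁ using h1
  obtain ⟨S, hSdef⟩ : ∃ S, S = R ∩ ⋂ c, S₁ c := ⟨_, rfl⟩
  have hSm : MeasurableSet S := by
    rw [hSdef]
    exact hR.inter (MeasurableSet.iInter fun c => (hS₁ c).1)
  have hSR : S ⊆ R := by rw [hSdef]; exact inter_subset_left
  have hSsub : ∀ c, S ⊆ S₁ c := by
    intro c
    rw [hSdef]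
    exact inter_subset_right.trans (iInter_subset _ c)
  have hSs : Small (R \ S) := by
    refine small_mono (small_iUnion fun c => (hS₁ c).2.2) ?_
    rintro p ⟨hpR, hpS⟩
    rw [mem_iUnion]
    by_contra hcon
    push Not at hcon
    apply hpS
    rw [hSdef]
    refine ⟨hpR, mem_iInter.2 fun c => ?_⟩
    by_contra hc
    exact hcon c ⟨hpR, hc⟩
  have hTS : ∀ c : (TopologicalSpace.countableBasis (ℕ → ℕ → ℕ)) × ℕ, ∀ S' : Set (X × Y),
      MeasurableSet S' → S' ⊆ R → Small (R \ S') → Term φ c.1.1 S' c.2 → Term φ c.1.1 S c.2 :=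
    fun c S' a1 a2 a3 a4 => term_anti (hSsub c) (hT₁ c S' a1 a2 a3 a4)
  -- graphs to be removed
  have h2 : ∀ c : (TopologicalSpace.countableBasis (ℕ → ℕ → ℕ)) × ℕ, ∃ B : Set (X × Y),
      MeasurableSet B ∧ (∀ x y y', (x, y) ∈ B → (x, y') ∈ B → y = y') ∧
      (Term φ c.1.1 S c.2 → ∀ γ ∈ c.1.1 ∩ Conf φ S, φ (γ c.2) ∈ B) := by
    intro c
    by_cases hT : Term φ c.1.1 S c.2
    · have hO : IsOpen c.1.1 := (TopologicalSpace.isBasis_countableBasis _).isOpen c.1.2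
      have hc : Continuous (fun γ : ℕ → ℕ → ℕ => φ (γ c.2)) := hφ.comp (continuous_apply c.2)
      have ha : AnalyticSet ((fun γ : ℕ → ℕ → ℕ => φ (γ c.2)) '' (c.1.1 ∩ Conf φ S)) :=
        (hO.measurableSet.inter (measurableSet_conf hφ hSm)).analyticSet.image_of_continuous hc
      obtain ⟨B, hB1, hB2, hB3⟩ := analytic_graph_subset ha (by
        rintro x y y' ⟨γ, hγ, hγe⟩ ⟨γ', hγ', hγe'⟩
        simp only at hγe hγe'
        have := hT γ hγ γ' hγ' (by rw [hγe, hγe'])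
        rwa [hγe, hγe'] at this)
      exact ⟨B, hB1, hB3, fun _ γ hγ => hB2 ⟨γ, hγ, rfl⟩⟩
    · exact ⟨∅, MeasurableSet.empty, fun _ _ _ h => absurd h (by simp), fun h => absurd h hT⟩
  choose B hB1 hB2 hB3 using h2
  have hBsmall : Small (⋃ c, B c) := small_iUnion fun c =>
    ⟨fun _ => B c, fun _ => hB1 c, fun p hp => mem_iUnion.2 ⟨0, hp⟩, fun _ => hB2 c⟩
  have hSBm : MeasurableSet (S \ ⋃ c, B c) := hSm.diff (MeasurableSet.iUnion hB1)
  have hSBR : S \ (⋃ c, B c) ⊆ R := sdiff_subset.trans hSR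
  have hSBs : Small (R \ (S \ ⋃ c, B c)) := by
    refine small_mono (small_union hSs hBsmall) ?_
    rintro p ⟨hpR, hp⟩
    by_cases hpS : p ∈ S
    · right
      by_contra hpB
      exact hp ⟨hpS, hpB⟩
    · left
      exact ⟨hpR, hpS⟩
  refine ⟨S \ ⋃ c, B c, hSBm, hSBR, hSBs, ?_⟩
  intro O hO i γ hγ hT
  have hT' := hTS (⟨O, hO⟩, i) _ hSBm hSBR hSBs hT
  have h3 := hB3 (⟨O, hO⟩, i) hT' γ ⟨hγ.1, conf_mono sdiff_subset hγ.2⟩
  exact (hγ.2 i).1.2 (mem_iUnion.2 ⟨_, h3⟩)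

theorem isOpen_agree (j i m : ℕ) :
    IsOpen {γ : ℕ → ℕ → ℕ | ∀ l < m, γ j l = γ i l} := by
  have e : {γ : ℕ → ℕ → ℕ | ∀ l < m, γ j l = γ i l} =
      ⋂ l ∈ Finset.range m, {γ : ℕ → ℕ → ℕ | γ j l = γ i l} := by
    ext γ
    simp
  rw [e]
  refine isOpen_biInter_finset fun l _ => ?_
  have hc : Continuous (fun γ : ℕ → ℕ → ℕ => (γ j l, γ i l)) :=
    ((continuous_apply l).comp (continuous_apply j)).prodMk
      ((continuous_apply l).comp (continuous_apply i))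
  exact (isOpen_discrete {p : ℕ × ℕ | p.1 = p.2}).preimage hc

theorem isOpen_agree_const (i m : ℕ) (a : ℕ → ℕ) :
    IsOpen {γ : ℕ → ℕ → ℕ | ∀ l < m, γ i l = a l} := by
  have e : {γ : ℕ → ℕ → ℕ | ∀ l < m, γ i l = a l} =
      ⋂ l ∈ Finset.range m, {γ : ℕ → ℕ → ℕ | γ i l = a l} := by
    ext γ
    simp
  rw [e]
  refine isOpen_biInter_finset fun l _ => ?_
  have hc : Continuous (fun γ : ℕ → ℕ → ℕ => γ i l) :=
    (continuous_apply l).comp (continuous_apply i)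
  exact (isOpen_discrete {p : ℕ | p = a l}).preimage hc

theorem cyl_sub {W : Set (ℕ → ℕ)} (hW : IsOpen W) {a : ℕ → ℕ} (ha : a ∈ W) :
    ∃ m, ∀ b : ℕ → ℕ, (∀ l < m, b l = a l) → b ∈ W := by
  obtain ⟨I, u, hu, hI⟩ := isOpen_pi_iff.1 hW a ha
  refine ⟨I.sup id + 1, fun b hb => hI ?_⟩
  intro l hl
  have h1 : l ≤ I.sup id := Finset.le_sup (f := id) hl
  rw [hb l (Nat.lt_succ_of_le h1)]
  exact (hu l hl).2

/-- the first Baire category argument -/
theorem generic_exists {X Y : Type*} [TopologicalSpace X] [PolishSpace X]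
    [TopologicalSpace Y] [PolishSpace Y] {φ : (ℕ → ℕ) → X × Y} (hφ : Continuous φ)
    {S : Set (X × Y)} (hne : (Conf φ S).Nonempty)
    (hS : ∀ O ∈ TopologicalSpace.countableBasis (ℕ → ℕ → ℕ), ∀ i, ∀ γ ∈ O ∩ Conf φ S,
      ¬ Term φ O S i) :
    ∃ γ : ℕ → ℕ → ℕ, γ ∈ closure (Conf φ S) ∧ ∀ i m, ∃ j, (∀ l < m, γ j l = γ i l) ∧
      (φ (γ j)).2 ≠ (φ (γ i)).2 := by
  classical
  have hCpol : PolishSpace (closure (Conf φ S)) := isClosed_closure.polishSpace
  have hCne : Nonempty (closure (Conf φ S)) := by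
    obtain ⟨γ, hγ⟩ := hne
    exact ⟨⟨γ, subset_closure hγ⟩⟩
  have ho : ∀ p : ℕ × ℕ, IsOpen {γ : closure (Conf φ S) | ∃ j, (∀ l < p.2, γ.1 j l = γ.1 p.1 l) ∧
      (φ (γ.1 j)).2 ≠ (φ (γ.1 p.1)).2} := by
    intro p
    have e : {γ : closure (Conf φ S) | ∃ j, (∀ l < p.2, γ.1 j l = γ.1 p.1 l) ∧
        (φ (γ.1 j)).2 ≠ (φ (γ.1 p.1)).2} = Subtype.val ⁻¹' (⋃ j,
          ({γ : ℕ → ℕ → ℕ | ∀ l < p.2, γ j l = γ p.1 l} ∩
          {γ : ℕ → ℕ → ℕ | (φ (γ j)).2 ≠ (φ (γ p.1)).2})) := by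
      ext γ
      simp
    rw [e]
    refine IsOpen.preimage continuous_subtype_val (isOpen_iUnion fun j => ?_)
    refine (isOpen_agree j p.1 p.2).inter ?_
    exact isOpen_ne_fun (continuous_snd.comp (hφ.comp (continuous_apply j)))
      (continuous_snd.comp (hφ.comp (continuous_apply p.1)))
  have hd : ∀ p : ℕ × ℕ, Dense {γ : closure (Conf φ S) | ∃ j, (∀ l < p.2, γ.1 j l = γ.1 p.1 l) ∧
      (φ (γ.1 j)).2 ≠ (φ (γ.1 p.1)).2} := by
    rintro ⟨i, m⟩
    rw [dense_iff_inter_open]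
    rintro U hU ⟨γ, hγU⟩
    obtain ⟨O, hO, rfl⟩ := isOpen_induced_iff.1 hU
    obtain ⟨γ₀, hγ₀O, hγ₀C⟩ := mem_closure_iff.1 γ.2 O hO hγU
    have hO' : IsOpen (O ∩ {γ' : ℕ → ℕ → ℕ | ∀ l < m, γ' i l = γ₀ i l}) :=
      hO.inter (isOpen_agree_const i m _)
    obtain ⟨I, u, hu, hI⟩ := isOpen_pi_iff.1 hO' γ₀ ⟨hγ₀O, fun _ _ => rfl⟩
    have hN : IsOpen ((I : Set ℕ).pi u) := isOpen_set_pi I.finite_toSet fun a ha => (hu a ha).1
    obtain ⟨O₂, hO₂b, hγ₀O₂, hO₂⟩ :=
      (TopologicalSpace.isBasis_countableBasis (ℕ → ℕ → ℕ)).exists_subset_of_mem_open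
        (show γ₀ ∈ (I : Set ℕ).pi u from fun a ha => (hu a ha).2) hN
    have hnt := hS O₂ hO₂b i γ₀ ⟨hγ₀O₂, hγ₀C⟩
    unfold Term at hnt
    push Not at hnt
    obtain ⟨γ₁, ⟨hγ₁O, hγ₁C⟩, γ₂, ⟨hγ₂O, hγ₂C⟩, hfst, hsnd⟩ := hnt
    obtain ⟨n, hn⟩ := Infinite.exists_notMem_finset (insert i I)
    rw [Finset.mem_insert, not_or] at hn
    obtain ⟨hni, hnI⟩ := hn
    have hγ₃C : Function.update γ₁ n (γ₂ i) ∈ Conf φ S := by
      have hx : ∀ j, φ (Function.update γ₁ n (γ₂ i) j) ∈ S ∧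
          (φ (Function.update γ₁ n (γ₂ i) j)).1 = (φ (γ₁ 0)).1 := by
        intro j
        by_cases hj : j = n
        · subst hj
          rw [Function.update_self]
          refine ⟨(hγ₂C i).1, ?_⟩
          rw [← hfst]
          exact (hγ₁C i).2
        · rw [Function.update_of_ne hj]
          exact ⟨(hγ₁C j).1, (hγ₁C j).2⟩
      intro j
      exact ⟨(hx j).1, (hx j).2.trans (hx 0).2.symm⟩
    have hγ₃N : Function.update γ₁ n (γ₂ i) ∈ (I : Set ℕ).pi u := by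
      intro a ha
      have han : a ≠ n := by rintro rfl; exact hnI ha
      rw [Function.update_of_ne han]
      exact hO₂ hγ₁O a ha
    refine ⟨⟨Function.update γ₁ n (γ₂ i), subset_closure hγ₃C⟩, ?_, ?_⟩
    · exact (hI hγ₃N).1
    · refine ⟨n, ?_, ?_⟩
      · intro l hl
        simp only
        rw [Function.update_self, Function.update_of_ne (Ne.symm hni)]
        rw [(hI (hO₂ hγ₂O)).2 l hl, (hI (hO₂ hγ₁O)).2 l hl]
      · simp only
        rw [Function.update_self, Function.update_of_ne (Ne.symm hni)]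
        exact fun h => hsnd h.symm
  obtain ⟨γ, hγ⟩ := (dense_iInter_of_isOpen ho hd).nonempty
  refine ⟨γ.1, γ.2, fun i m => ?_⟩
  exact mem_iInter.1 hγ (i, m)

/-- Lusin-Novikov: a Borel set with countable sections is a countable union of Borel graphs. -/
theorem lusin_novikov {X Y : Type*} [TopologicalSpace X] [PolishSpace X]
    [MeasurableSpace X] [BorelSpace X] [TopologicalSpace Y] [PolishSpace Y] [MeasurableSpace Y]
    [BorelSpace Y] {R : Set (X × Y)} (hR : MeasurableSet R)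
    (hc : ∀ x, {y | (x, y) ∈ R}.Countable) :
    ∃ G : ℕ → Set (X × Y), (∀ n, MeasurableSet (G n)) ∧ (⋃ n, G n) = R ∧
      ∀ n x y y', (x, y) ∈ G n → (x, y') ∈ G n → y = y' := by
  classical
  suffices hsm : Small R by
    obtain ⟨B, h1, h2, h3⟩ := hsm
    refine ⟨fun n => R ∩ B n, fun n => hR.inter (h1 n), ?_, fun n x y y' h h' => h3 n x y y' h.2 h'.2⟩
    rw [← inter_iUnion, inter_eq_left]
    exact h2
  have hRa := hR.analyticSet
  rw [AnalyticSet] at hRa
  rcases hRa with rfl | ⟨φ, hφ, hφR⟩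
  · exact small_empty
  obtain ⟨S, hSm, hSR, hSs, hS⟩ := key_star hR hφ
  rcases S.eq_empty_or_nonempty with rfl | ⟨p, hp⟩
  · rwa [sdiff_empty] at hSs
  exfalso
  obtain ⟨a, ha⟩ : ∃ a, φ a = p := by
    have := hSR hp
    rw [← hφR] at this
    exact this
  have hne : (Conf φ S).Nonempty := ⟨fun _ => a, fun j => ⟨by rw [ha]; exact hp, rfl⟩⟩
  obtain ⟨γ, hγC, hγ⟩ := generic_exists hφ hne hS
  have hx : ∀ j, (φ (γ j)).1 = (φ (γ 0)).1 := by
    intro j
    have hcl : IsClosed {γ : ℕ → ℕ → ℕ | (φ (γ j)).1 = (φ (γ 0)).1} :=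
      isClosed_eq (continuous_fst.comp (hφ.comp (continuous_apply j)))
        (continuous_fst.comp (hφ.comp (continuous_apply 0)))
    exact closure_minimal (fun γ' hγ' => (hγ' j).2) hcl hγC
  have hKpol : PolishSpace (closure (range γ)) := isClosed_closure.polishSpace
  have hKne : Nonempty (closure (range γ)) := ⟨⟨γ 0, subset_closure ⟨0, rfl⟩⟩⟩
  have hKx : ∀ κ ∈ closure (range γ), (φ κ).1 = (φ (γ 0)).1 := by
    intro κ hκ
    have hcl : IsClosed {κ : ℕ → ℕ | (φ κ).1 = (φ (γ 0)).1} :=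
      isClosed_eq (continuous_fst.comp hφ) continuous_const
    refine closure_minimal ?_ hcl hκ
    rintro _ ⟨j, rfl⟩
    exact hx j
  have hYc : Countable {y | ((φ (γ 0)).1, y) ∈ R} := (hc _).to_subtype
  have hclosed : ∀ y : {y | ((φ (γ 0)).1, y) ∈ R},
      IsClosed {κ : closure (range γ) | (φ κ.1).2 = y.1} := by
    intro y
    exact isClosed_eq (continuous_snd.comp (hφ.comp continuous_subtype_val)) continuous_const
  have hcover : (⋃ y : {y | ((φ (γ 0)).1, y) ∈ R},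
      {κ : closure (range γ) | (φ κ.1).2 = y.1}) = univ := by
    rw [eq_univ_iff_forall]
    intro κ
    refine mem_iUnion.2 ⟨⟨(φ κ.1).2, ?_⟩, rfl⟩
    show ((φ (γ 0)).1, (φ κ.1).2) ∈ R
    rw [← hKx κ.1 κ.2, ← hφR]
    exact ⟨κ.1, rfl⟩
  obtain ⟨y, hy⟩ := nonempty_interior_of_iUnion_of_closed hclosed hcover
  obtain ⟨κ, hκ⟩ := hy
  obtain ⟨V, hVsub, hVo, hκV⟩ := mem_interior.1 hκ
  obtain ⟨W, hW, rfl⟩ := isOpen_induced_iff.1 hVo
  obtain ⟨_, hbW, ⟨i, rfl⟩⟩ := mem_closure_iff.1 κ.2 W hW hκV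
  obtain ⟨m, hm⟩ := cyl_sub hW hbW
  obtain ⟨j, hj1, hj2⟩ := hγ i m
  have hjW : γ j ∈ W := hm _ hj1
  have e1 : (φ (γ i)).2 = y.1 := hVsub (show (⟨γ i, subset_closure ⟨i, rfl⟩⟩ :
    closure (range γ)) ∈ Subtype.val ⁻¹' W from hbW)
  have e2 : (φ (γ j)).2 = y.1 := hVsub (show (⟨γ j, subset_closure ⟨j, rfl⟩⟩ :
    closure (range γ)) ∈ Subtype.val ⁻¹' W from hjW)
  exact hj2 (e2.trans e1.symm)

/-- A countable Borel equivalence relation is enumerated by countably many Borel functions. -/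
theorem cber_enum {Y : Type*} [MeasurableSpace Y] [StandardBorelSpace Y] (F : Y → Y → Prop)
    (hF : Equivalence F) (hm : MeasurableSet {p : Y × Y | F p.1 p.2})
    (hc : ∀ y, {y' | F y y'}.Countable) :
    ∃ δ : ℕ → Y → Y, (∀ n, Measurable (δ n)) ∧ ∀ y y', F y y' ↔ ∃ n, δ n y = y' := by
  classical
  let := upgradeStandardBorel Y
  obtain ⟨G, hG1, hG2, hG3⟩ := lusin_novikov hm hc
  refine ⟨fun n y => if h : ∃ y', (y, y') ∈ G n then h.choose else y, ?_, ?_⟩
  · intro n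
    have hinj : InjOn (Prod.fst : Y × Y → Y) (G n) := by
      rintro ⟨a, b⟩ h1 ⟨a', b'⟩ h2 hab
      simp only at hab
      subst hab
      rw [hG3 n _ _ _ h1 h2]
    intro B hB
    have e : (fun y => if h : ∃ y', (y, y') ∈ G n then h.choose else y) ⁻¹' B =
        (Prod.fst '' (G n ∩ Prod.snd ⁻¹' B)) ∪ (B \ (Prod.fst '' (G n))) := by
      ext y
      simp only [mem_preimage]
      by_cases h : ∃ y', (y, y') ∈ G n
      · rw [dif_pos h]
        constructor
        · intro hh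
          left
          exact ⟨(y, h.choose), ⟨h.choose_spec, hh⟩, rfl⟩
        · rintro (⟨⟨a, b⟩, ⟨h1, h2⟩, h3⟩ | ⟨h1, h2⟩)
          · simp only at h3
            subst h3
            rw [hG3 n _ _ _ h.choose_spec h1]
            exact h2
          · exfalso
            apply h2
            obtain ⟨y', hy'⟩ := h
            exact ⟨(y, y'), hy', rfl⟩
      · rw [dif_neg h]
        constructor
        · intro hh
          right
          refine ⟨hh, ?_⟩
          rintro ⟨⟨a, b⟩, h1, h2⟩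
          simp only at h2
          subst h2
          exact h ⟨b, h1⟩
        · rintro (⟨⟨a, b⟩, ⟨h1, h2⟩, h3⟩ | ⟨h1, h2⟩)
          · simp only at h3
            subst h3
            exact absurd ⟨b, h1⟩ h
          · exact h1
    rw [e]
    refine MeasurableSet.union ?_ (hB.diff ?_)
    · exact ((hG1 n).inter (measurable_snd hB)).image_of_measurable_injOn measurable_fst
        (hinj.mono inter_subset_left)
    · exact (hG1 n).image_of_measurable_injOn measurable_fst hinj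
  · intro y y'
    constructor
    · intro h
      have : (y, y') ∈ ⋃ n, G n := by rw [hG2]; exact h
      obtain ⟨n, hn⟩ := mem_iUnion.1 this
      refine ⟨n, ?_⟩
      have hex : ∃ y', (y, y') ∈ G n := ⟨y', hn⟩
      beta_reduce
      rw [dif_pos hex]
      exact hG3 n _ _ _ hex.choose_spec hn
    · rintro ⟨n, hn⟩
      beta_reduce at hn
      by_cases hex : ∃ y', (y, y') ∈ G n
      · rw [dif_pos hex] at hn
        have h1 : (y, hex.choose) ∈ ⋃ n, G n := mem_iUnion.2 ⟨n, hex.choose_spec⟩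
        rw [hG2, hn] at h1
        exact h1
      · rw [dif_neg hex] at hn
        rw [hn]
        exact hF.refl _


end Pool.Agent.Helper174.LusinNovikov
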